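import Mathlib
import Pool.Agent.R649.BSMain

/-! The solvable Baumslag-Solitar groups `BS(1,m)` have unbounded retreat depth for the generators
`a`, `t`; the retreat depth grows linearly with the length along a sequence. -/

namespace Pool.Agent.Results.MP_af8618_al.UnboundedRetreatDepth

open Pool.Agent.R649 Pool.Agent.R649.BS

theorem result (m : ℕ) (hm : 2 ≤ m) :
    ¬ BoundedRetreatDepth (gens m) ∧
      ∀ n : ℕ, ∃ g : BS m, n ≤ 2 * retreatDepth (gens m) g + 16 ∧
        wordLength (gens m) g ≤ (m + 3) * n + 1 :=
  ⟨unbounded m hm, main m hm⟩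

end Pool.Agent.Results.MP_af8618_al.UnboundedRetreatDepth
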